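import Pool.Agent.Helper36.CW.STR
import Pool.Agent.Helper74.CW.TYII
import Pool.Agent.Helper82.CW.SYM
import Pool.Agent.Helper74.CW.TYI

/-!
# A kernel of dimension at least four (CW, module FOUR)
-/

namespace Pool.Agent.Helper74.CW

open Module Polynomial

variable {F K : Type*} [Field F] [Field K] [Algebra F K]

private theorem four_mem_sc {ξ x : K} {T : Submodule F K} (h : x ∈ T) : ξ * x ∈ sc ξ T :=
  Submodule.mem_map.2 ⟨x, h, rfl⟩

private theorem four_sc_finrank {ξ : K} (h : ξ ≠ 0) (T : Submodule F K) :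
    finrank F (sc ξ T) = finrank F T := by
  have h3 : Function.Injective (LinearMap.mulLeft F ξ) := by
    intro x y hxy
    simp only [LinearMap.mulLeft_apply] at hxy
    exact mul_left_cancel₀ h hxy
  exact (LinearEquiv.finrank_eq (Submodule.equivMapOfInjective _ h3 _)).symm

private theorem four_sc_sc {ξ η : K} (T : Submodule F K) : sc ξ (sc η T) = sc (ξ * η) T := by
  unfold sc
  rw [← Submodule.map_comp, ← LinearMap.mulLeft_mul]

private theorem four_sc_one (T : Submodule F K) : sc (1 : K) T = T := by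
  unfold sc
  rw [LinearMap.mulLeft_one, Submodule.map_id]

/-- every plane in `T` has a match in `S` -/
private theorem four_match {S T : Submodule F K} (hS : finrank F S = 3) (hT : finrank F T = 3)
    (h : finrank F ↥(S * T) ≤ 5) {T' : Submodule F K} (hT' : T' ≤ T) (d : finrank F T' = 2) :
    ∃ ξ : K, ξ ≠ 0 ∧ sc ξ T' ≤ S := by
  have : FiniteDimensional F S := FiniteDimensional.of_finrank_pos (by omega)
  have : FiniteDimensional F T := FiniteDimensional.of_finrank_pos (by omega)
  have : FiniteDimensional F T' := FiniteDimensional.of_finrank_pos (by omega)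
  have : FiniteDimensional F ↥(S * T) := by
    rw [← Submodule.fg_iff_finiteDimensional]
    exact Submodule.FG.mul ((Submodule.fg_iff_finiteDimensional _).2 inferInstance)
      ((Submodule.fg_iff_finiteDimensional _).2 inferInstance)
  let b : Basis (Fin 2) F T' := finBasisOfFinrankEq F T' d
  have hu : (b 0 : K) ≠ 0 := by
    intro h0
    exact b.ne_zero 0 (Subtype.ext h0)
  have hv : (b 1 : K) ≠ 0 := by
    intro h0
    exact b.ne_zero 1 (Subtype.ext h0)
  let φ : (S × S) →ₗ[F] K :=
    (LinearMap.mulRight F (b 0 : K)).comp (S.subtype.comp (LinearMap.fst F S S)) +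
      (LinearMap.mulRight F (b 1 : K)).comp (S.subtype.comp (LinearMap.snd F S S))
  have hφ : ∀ p : S × S, φ p = (p.1 : K) * b 0 + (p.2 : K) * b 1 := fun p => rfl
  have h1 : LinearMap.range φ ≤ S * T := by
    rintro _ ⟨p, rfl⟩
    rw [hφ]
    exact Submodule.add_mem _ (Submodule.mul_mem_mul p.1.2 (hT' (b 0).2))
      (Submodule.mul_mem_mul p.2.2 (hT' (b 1).2))
  have h2 := Submodule.finrank_mono h1
  have h3 := LinearMap.finrank_range_add_finrank_ker φ
  have h4 : finrank F (S × S) = 6 := by rw [Module.finrank_prod, hS]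
  have h5 : LinearMap.ker φ ≠ ⊥ := by
    intro h0
    rw [h0, finrank_bot] at h3
    omega
  obtain ⟨p, hp, hp0⟩ := Submodule.exists_mem_ne_zero_of_ne_bot h5
  rw [LinearMap.mem_ker, hφ] at hp
  have hp1 : (p.1 : K) ≠ 0 := by
    intro h0
    rw [h0, zero_mul, zero_add] at hp
    rcases mul_eq_zero.1 hp with h6 | h6
    · exact hp0 (Prod.ext (Subtype.ext h0) (Subtype.ext h6))
    · exact hv h6
  refine ⟨(p.1 : K) / b 1, div_ne_zero hp1 hv, ?_⟩
  rintro _ ⟨x, hx, rfl⟩
  rw [LinearMap.mulLeft_apply]
  have h7 := congrArg (Subtype.val) (b.sum_repr ⟨x, hx⟩)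
  rw [Fin.sum_univ_two] at h7
  have h8 : x = b.repr ⟨x, hx⟩ 0 • (b 0 : K) + b.repr ⟨x, hx⟩ 1 • (b 1 : K) := h7.symm
  rw [h8, mul_add, mul_smul_comm, mul_smul_comm]
  refine Submodule.add_mem _ (Submodule.smul_mem _ _ ?_) (Submodule.smul_mem _ _ ?_)
  · have h9 : (p.1 : K) / b 1 * b 0 = -(p.2 : K) := by
      field_simp
      linear_combination hp
    rw [h9]
    exact S.neg_mem p.2.2
  · rw [div_mul_cancel₀ _ hv]
    exact p.1.2

/-- there are at least two planes -/
private theorem four_plane {T : Submodule F K} (hT : finrank F T = 3) (T₁ : Submodule F K) :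
    ∃ T₂ : Submodule F K, T₂ ≤ T ∧ finrank F T₂ = 2 ∧ T₂ ≠ T₁ := by
  have : FiniteDimensional F T := FiniteDimensional.of_finrank_pos (by omega)
  let b : Basis (Fin 3) F T := finBasisOfFinrankEq F T hT
  have hb : LinearIndependent F (fun i => (b i : K)) :=
    b.linearIndependent.map' T.subtype (Submodule.ker_subtype T)
  have key : ∀ i j : Fin 3, i ≠ j → finrank F (Submodule.span F {(b i : K), (b j : K)}) = 2 ∧
      Submodule.span F {(b i : K), (b j : K)} ≤ T := by
    intro i j hij
    constructor
    · have h1 : LinearIndependent F ![(b i : K), (b j : K)] := by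
        have h2 := hb.comp ![i, j] (by
          intro a c hac
          fin_cases a <;> fin_cases c <;> simp_all)
        convert h2 using 1
        funext a
        fin_cases a <;> rfl
      have h3 := finrank_span_eq_card h1
      have h4 : Set.range ![(b i : K), (b j : K)] = {(b i : K), (b j : K)} := by
        ext x
        simp only [Set.mem_range, Fin.exists_fin_two, Matrix.cons_val_zero, Matrix.cons_val_one,
          Set.mem_insert_iff, Set.mem_singleton_iff]
        exact ⟨fun h => h.imp Eq.symm Eq.symm, fun h => h.imp Eq.symm Eq.symm⟩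
      rw [h4] at h3
      simpa using h3
    · rw [Submodule.span_le]
      rintro x (rfl | rfl)
      · exact (b i).2
      · exact (b j).2
  by_cases h : Submodule.span F {(b 0 : K), (b 1 : K)} = T₁
  · refine ⟨Submodule.span F {(b 0 : K), (b 2 : K)}, (key 0 2 (by decide)).2,
      (key 0 2 (by decide)).1, ?_⟩
    intro h2
    have h3 : (b 2 : K) ∈ Submodule.span F {(b 0 : K), (b 1 : K)} := by
      rw [h, ← h2]
      exact Submodule.subset_span (by simp)
    have h4 : (b 2 : K) ∉ Submodule.span F ((fun i => (b i : K)) '' {0, 1}) :=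
      hb.notMem_span_image (by decide)
    apply h4
    convert h3 using 2
    simp [Set.image_pair]
  · exact ⟨_, (key 0 1 (by decide)).2, (key 0 1 (by decide)).1, h⟩

/-- two matches with different planes on both sides -/
private theorem four_two {S T : Submodule F K} (hS : finrank F S = 3) (hT : finrank F T = 3)
    (h : finrank F ↥(S * T) ≤ 5) : ∃ (ξ₁ ξ₂ : K) (T₁ T₂ : Submodule F K), ξ₁ ≠ 0 ∧ ξ₂ ≠ 0 ∧
      T₁ ≤ T ∧ T₂ ≤ T ∧ finrank F T₁ = 2 ∧ finrank F T₂ = 2 ∧ T₁ ≠ T₂ ∧ sc ξ₁ T₁ ≤ S ∧
      sc ξ₂ T₂ ≤ S ∧ sc ξ₁ T₁ ≠ sc ξ₂ T₂ := by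
  obtain ⟨T₁, hT1, d1, -⟩ := four_plane hT ⊥
  obtain ⟨ξ₁, hξ1, hm1⟩ := four_match hS hT h hT1 d1
  obtain ⟨S₁, hS1, e1, hne1⟩ := four_plane hS (sc ξ₁ T₁)
  obtain ⟨η, hη, hm2⟩ := four_match hT hS (by rw [mul_comm]; exact h) hS1 e1
  have hback : sc η⁻¹ (sc η S₁) = S₁ := by
    rw [four_sc_sc, inv_mul_cancel₀ hη, four_sc_one]
  have d2 : finrank F (sc η S₁) = 2 := by rw [four_sc_finrank hη, e1]
  by_cases hc : T₁ = sc η S₁
  · obtain ⟨T₃, hT3, d3, hne3⟩ := four_plane hT T₁
    obtain ⟨ξ₃, hξ3, hm3⟩ := four_match hS hT h hT3 d3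
    by_cases hc2 : sc ξ₁ T₁ = sc ξ₃ T₃
    · refine ⟨η⁻¹, ξ₃, sc η S₁, T₃, inv_ne_zero hη, hξ3, hm2, hT3, d2, d3, ?_, ?_, hm3, ?_⟩
      · rw [← hc]
        exact hne3.symm
      · rw [hback]
        exact hS1
      · rw [hback, ← hc2]
        exact hne1
    · exact ⟨ξ₁, ξ₃, T₁, T₃, hξ1, hξ3, hT1, hT3, d1, d3, hne3.symm, hm1, hm3, hc2⟩
  · refine ⟨ξ₁, η⁻¹, T₁, sc η S₁, hξ1, inv_ne_zero hη, hT1, hm2, d1, d2, hc, hm1, ?_, ?_⟩
    · rw [hback]
      exact hS1
    · rw [hback]
      exact hne1.symm

/-- two independent relations between seven elements of a space of dimension at most five -/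
private theorem four_rel {P : Submodule F K} [FiniteDimensional F P] (hP : finrank F P ≤ 5) {w : K}
    (hw : w ≠ 0) (m : Fin 7 → K) (hm : ∀ i, w * m i ∈ P) : ∃ c d : Fin 7 → F,
      LinearIndependent F ![c, d] ∧ ∑ i, c i • m i = 0 ∧ ∑ i, d i • m i = 0 := by
  let φ : (Fin 7 → F) →ₗ[F] K := Fintype.linearCombination F (fun i => w * m i)
  have hφ : ∀ c, φ c = w * ∑ i, c i • m i := by
    intro c
    simp only [φ, Fintype.linearCombination_apply, Finset.mul_sum, mul_smul_comm]
  have h1 : LinearMap.range φ ≤ P := by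
    rintro _ ⟨p, rfl⟩
    simp only [φ, Fintype.linearCombination_apply]
    exact Submodule.sum_mem _ fun i _ => Submodule.smul_mem _ _ (hm i)
  have h2 := Submodule.finrank_mono h1
  have h3 := LinearMap.finrank_range_add_finrank_ker φ
  rw [Module.finrank_fin_fun] at h3
  have h4 : 2 ≤ finrank F (LinearMap.ker φ) := by omega
  obtain ⟨f, hf⟩ := exists_linearIndependent_of_le_finrank h4
  have h5 : LinearIndependent F (fun i => (f i : Fin 7 → F)) :=
    hf.map' (LinearMap.ker φ).subtype (Submodule.ker_subtype _)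
  have h6 : ∀ i, ∑ j, (f i : Fin 7 → F) j • m j = 0 := by
    intro i
    have h7 := (f i).2
    rw [LinearMap.mem_ker, hφ] at h7
    exact (mul_eq_zero.1 h7).resolve_left hw
  refine ⟨f 0, f 1, ?_, h6 0, h6 1⟩
  convert h5 using 1
  funext i
  fin_cases i <;> rfl

private theorem four_li {a b c w : K} (hw : w ≠ 0)
    (h : finrank F (sc w (Submodule.span F {a, b, c})) = 3) : LinearIndependent F ![a, b, c] := by
  rw [four_sc_finrank hw] at h
  rw [linearIndependent_iff_card_eq_finrank_span]
  have h4 : Set.range ![a, b, c] = {a, b, c} := by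
    ext x
    simp only [Set.mem_range, Fin.exists_fin_succ, Set.mem_insert_iff, Set.mem_singleton_iff,
      IsEmpty.exists_iff, or_false]
    constructor
    · rintro (rfl | rfl | rfl)
      · exact Or.inl rfl
      · exact Or.inr (Or.inl rfl)
      · exact Or.inr (Or.inr rfl)
    · rintro (rfl | rfl | rfl)
      · exact Or.inl rfl
      · exact Or.inr (Or.inl rfl)
      · exact Or.inr (Or.inr rfl)
  rw [h4]
  simp only [Fintype.card_fin]
  exact h.symm

theorem four_le (hB : Big F K) {t s : Fin 3 → K} (ht : LinearIndependent F t)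
    (hs : LinearIndependent F s) (h : 4 ≤ finrank F (NN F t s)) :
    Sim (Submodule.span F (Set.range s)) (Submodule.span F (Set.range t)) := by
  have hN := NN_finrank (F := F) t s
  have hS : finrank F (Submodule.span F (Set.range s)) = 3 := by
    rw [finrank_span_eq_card hs, Fintype.card_fin]
  have hT : finrank F (Submodule.span F (Set.range t)) = 3 := by
    rw [finrank_span_eq_card ht, Fintype.card_fin]
  generalize Submodule.span F (Set.range s) = S at hN hS ⊢
  generalize Submodule.span F (Set.range t) = T at hN hT ⊢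
  have h5 : finrank F ↥(S * T) ≤ 5 := by omega
  have : FiniteDimensional F S := FiniteDimensional.of_finrank_pos (by omega)
  have : FiniteDimensional F T := FiniteDimensional.of_finrank_pos (by omega)
  have : FiniteDimensional F ↥(S * T) := by
    rw [← Submodule.fg_iff_finiteDimensional]
    exact Submodule.FG.mul ((Submodule.fg_iff_finiteDimensional _).2 inferInstance)
      ((Submodule.fg_iff_finiteDimensional _).2 inferInstance)
  by_contra hn
  obtain ⟨ξ₁, ξ₂, T₁, T₂, h1, h2, hT1, hT2, d1, d2, hne, hS1, hS2, hne'⟩ := four_two hS hT h5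
  obtain ⟨x, y, z, hxyz, hTe, hcase⟩ :=
    two_matches hS hT hn h1 h2 hT1 hT2 d1 d2 hne hS1 hS2 hne'
  have hx : x ∈ T := by rw [hTe]; exact Submodule.subset_span (by simp)
  have hy : y ∈ T := by rw [hTe]; exact Submodule.subset_span (by simp)
  have hz : z ∈ T := by rw [hTe]; exact Submodule.subset_span (by simp)
  rcases hcase with ⟨w, hw, hSe⟩ | ⟨w, hw, hSe⟩
  · have hyz : w * (y * z) ∈ S := by
      rw [hSe]; exact four_mem_sc (Submodule.subset_span (by simp))
    have hxz : w * (x * z) ∈ S := by
      rw [hSe]; exact four_mem_sc (Submodule.subset_span (by simp))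
    have hxy : w * (x * y) ∈ S := by
      rw [hSe]; exact four_mem_sc (Submodule.subset_span (by simp))
    obtain ⟨c, d, hcd, hc, hd⟩ := four_rel h5 hw
      ![x ^ 2 * y, x ^ 2 * z, x * y ^ 2, y ^ 2 * z, x * z ^ 2, y * z ^ 2, x * y * z] (by
        intro i
        fin_cases i
        · show w * (x ^ 2 * y) ∈ _
          convert Submodule.mul_mem_mul hxy hx using 1; ring
        · show w * (x ^ 2 * z) ∈ _
          convert Submodule.mul_mem_mul hxz hx using 1; ring
        · show w * (x * y ^ 2) ∈ _
          convert Submodule.mul_mem_mul hxy hy using 1; ring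
        · show w * (y ^ 2 * z) ∈ _
          convert Submodule.mul_mem_mul hyz hy using 1; ring
        · show w * (x * z ^ 2) ∈ _
          convert Submodule.mul_mem_mul hxz hz using 1; ring
        · show w * (y * z ^ 2) ∈ _
          convert Submodule.mul_mem_mul hyz hz using 1; ring
        · show w * (x * y * z) ∈ _
          convert Submodule.mul_mem_mul hxy hz using 1; ring)
    have hli : LinearIndependent F ![y * z, x * z, x * y] := four_li hw (by rw [← hSe]; exact hS)
    rw [Fin.sum_univ_seven] at hc hd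
    have hsim := type_one hB hxyz hli hcd hc hd
    obtain ⟨ξ, hξ, he⟩ := hsim
    exact hn ⟨w * ξ, mul_ne_zero hw hξ, by rw [hSe, he, four_sc_sc, hTe]⟩
  · have hxx : w * (x ^ 2) ∈ S := by
      rw [hSe]; exact four_mem_sc (Submodule.subset_span (by simp))
    have hxz : w * (x * z) ∈ S := by
      rw [hSe]; exact four_mem_sc (Submodule.subset_span (by simp))
    have hyz : w * (y * z) ∈ S := by
      rw [hSe]; exact four_mem_sc (Submodule.subset_span (by simp))
    obtain ⟨c, d, hcd, hc, hd⟩ := four_rel h5 hw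
      ![x ^ 3, x ^ 2 * y, x ^ 2 * z, x * y * z, x * z ^ 2, y ^ 2 * z, y * z ^ 2] (by
        intro i
        fin_cases i
        · show w * (x ^ 3) ∈ _
          convert Submodule.mul_mem_mul hxx hx using 1; ring
        · show w * (x ^ 2 * y) ∈ _
          convert Submodule.mul_mem_mul hxx hy using 1; ring
        · show w * (x ^ 2 * z) ∈ _
          convert Submodule.mul_mem_mul hxx hz using 1; ring
        · show w * (x * y * z) ∈ _
          convert Submodule.mul_mem_mul hxz hy using 1; ring
        · show w * (x * z ^ 2) ∈ _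
          convert Submodule.mul_mem_mul hxz hz using 1; ring
        · show w * (y ^ 2 * z) ∈ _
          convert Submodule.mul_mem_mul hyz hy using 1; ring
        · show w * (y * z ^ 2) ∈ _
          convert Submodule.mul_mem_mul hyz hz using 1; ring)
    have hli : LinearIndependent F ![x ^ 2, x * z, y * z] := four_li hw (by rw [← hSe]; exact hS)
    rw [Fin.sum_univ_seven] at hc hd
    have hsim := type_two hB hxyz hli hcd hc hd
    obtain ⟨ξ, hξ, he⟩ := hsim
    exact hn ⟨w * ξ, mul_ne_zero hw hξ, by rw [hSe, he, four_sc_sc, hTe]⟩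

end Pool.Agent.Helper74.CW
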